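import Pool.Agent.R696.TF.Mid

/-!
# Homology with values in a semisimple category, thick classes, and full functors
-/

set_option autoImplicit false

open CategoryTheory CategoryTheory.Limits AlgebraicGeometry MvPolynomial
open scoped ZeroObject
open Pool.Agent.Y116.UV Pool.Agent.Z125.UN
open Pool.Agent.R904.TB (IsCompl jouS laurS)

namespace Pool.Agent.R696.TF

universe u v u' v'

/-- Every short exact sequence splits. -/
structure Semisimple (𝓜 : Type u) [Category.{v} 𝓜] : Prop where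
  mono : ∀ {A B : 𝓜} (f : A ⟶ B) [Mono f], IsSplitMono f
  epi : ∀ {A B : 𝓜} (f : A ⟶ B) [Epi f], IsSplitEpi f

/-- `C` contains the middle term `B` of an exact sequence `A → B → D` if it contains `A` and `D`. -/
def Thick {𝓜 : Type u} [Category.{v} 𝓜] [Abelian 𝓜] (C : 𝓜 → Prop) : Prop :=
  ∀ S : ShortComplex 𝓜, S.Exact → C S.X₁ → C S.X₃ → C S.X₂

/-- The functor `R` is full on the morphisms from `e` to `M`. -/
def FullAt {𝓜 : Type u} [Category.{v} 𝓜] {𝓗 : Type u'} [Category.{v'} 𝓗] (R : 𝓜 ⥤ 𝓗) (e M : 𝓜) :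
    Prop :=
  ∀ h : R.obj e ⟶ R.obj M, ∃ g : e ⟶ M, R.map g = h

section

variable {𝓜 : Type u} [Category.{v} 𝓜] [Abelian 𝓜]

theorem Thick.of_iso {C : 𝓜 → Prop} (hC : Thick C) {A B : 𝓜} (e : A ≅ B) (h : C A) : C B := by
  have h0 : C 0 := hC (ShortComplex.mk (0 : A ⟶ 0) (0 : (0 : 𝓜) ⟶ A) (by simp))
    (ShortComplex.exact_of_isZero_X₂ _ (isZero_zero _)) h h
  refine hC (ShortComplex.mk e.hom (0 : B ⟶ 0) (by simp)) ?_ h h0
  exact (ShortComplex.exact_iff_epi _ rfl).2 (inferInstanceAs (Epi e.hom))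

theorem split_image (hs : Semisimple 𝓜) {A B : 𝓜} (g : A ⟶ B) :
    ∃ (I : 𝓜) (p : A ⟶ I) (m : I ⟶ B) (r : B ⟶ I) (s : I ⟶ A), p ≫ m = g ∧ m ≫ r = 𝟙 I ∧
      s ≫ p = 𝟙 I := by
  obtain ⟨⟨r⟩⟩ := hs.mono (image.ι g)
  obtain ⟨⟨s⟩⟩ := hs.epi (factorThruImage g)
  exact ⟨_, _, _, r.retraction, s.section_, image.fac g, r.id, s.id⟩

theorem fullAt_thick (hs : Semisimple 𝓜) {𝓗 : Type u'} [Category.{v'} 𝓗] [Preadditive 𝓗]
    (R : 𝓜 ⥤ 𝓗) [R.Additive] (e : 𝓜) : Thick (FullAt R e) := by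
  intro S hS h1 h3 h
  obtain ⟨I, p, m, r, s, hg, hr, hsec⟩ := split_image hs S.g
  obtain ⟨a, ha⟩ := h3 (h ≫ R.map S.g)
  -- the first correction
  have hb : R.map (a ≫ r ≫ s ≫ S.g) = h ≫ R.map S.g := by
    have : S.g ≫ r ≫ s ≫ S.g = S.g := by
      rw [← hg]
      simp only [Category.assoc]
      rw [reassoc_of% hr, reassoc_of% hsec]
    rw [R.map_comp, ha, Category.assoc, ← R.map_comp, this]
  -- the kernel of `g`
  have hk : (𝟙 _ - p ≫ s) ≫ S.g = 0 := by
    rw [Preadditive.sub_comp, Category.id_comp, Category.assoc, ← hg, reassoc_of% hsec, sub_self]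
  have hepi : Epi (kernel.lift S.g S.f S.zero) := hS.epi_kernelLift
  obtain ⟨⟨t⟩⟩ := hs.epi (kernel.lift S.g S.f S.zero)
  have ht : t.section_ ≫ kernel.lift S.g S.f S.zero = 𝟙 _ := t.id
  have e3 : (kernel.lift S.g (𝟙 _ - p ≫ s) hk ≫ t.section_) ≫ S.f = 𝟙 _ - p ≫ s := by
    have h4 : t.section_ ≫ S.f = kernel.ι S.g := by
      have h5 := congrArg (fun q => t.section_ ≫ q) (kernel.lift_ι S.g S.f S.zero)
      simp only [reassoc_of% ht] at h5
      exact h5.symm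
    rw [Category.assoc, h4, kernel.lift_ι]
  set h' : R.obj e ⟶ R.obj S.X₂ := h - R.map (a ≫ r ≫ s) with hh'
  have h'g : h' ≫ R.map S.g = 0 := by
    rw [hh', Preadditive.sub_comp, ← R.map_comp]
    simp only [Category.assoc]
    rw [hb, sub_self]
  have h'p : h' ≫ R.map p = 0 := by
    have e1 : p = S.g ≫ r := by
      rw [← hg, Category.assoc, hr, Category.comp_id]
    rw [e1, R.map_comp, reassoc_of% h'g, zero_comp]
  obtain ⟨d, hd⟩ := h1 (h' ≫ R.map (kernel.lift S.g (𝟙 _ - p ≫ s) hk ≫ t.section_))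
  refine ⟨a ≫ r ≫ s + d ≫ S.f, ?_⟩
  have e5 : h' ≫ R.map (p ≫ s) = 0 := by rw [R.map_comp, reassoc_of% h'p, zero_comp]
  rw [R.map_add, R.map_comp d S.f, hd, Category.assoc, ← R.map_comp, e3, R.map_sub,
    Preadditive.comp_sub, R.map_id, Category.comp_id, e5, sub_zero, hh']
  abel

end

/-- Borel–Moore homology of separated schemes of finite type over `k` with values in the abelian
category `𝓜`, with all Tate twists: `obj i j X` is `H_i(X)(-j)`.

* `localization`: the long exact sequences of a closed subscheme `Z` of `X` and its complement `U`;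
* `bundle`: for the affine bundle of Jouanolou over `U` with fibre `𝔸^(m-1)`, the homology in bidegree
  `(i + 2(m-1), j + (m-1))` of the total space is the one of `U` in bidegree `(i, j)`;
* `torus`: the homology of `X` in bidegree `(i, j)` is a direct summand of the homology of `X × 𝔾_m` in
  bidegree `(i + 2, j + 1)`. -/
structure Homology (k : Type) [Field k] (𝓜 : Type u) [Category.{v} 𝓜] [Abelian 𝓜] where
  obj : ℤ → ℤ → Sch k → 𝓜
  iso : ∀ (i j : ℤ) {X Y : Sch k}, FT True X → Nonempty (X ≅ Y) → Nonempty (obj i j X ≅ obj i j Y)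
  localization : ∀ (w : ℤ) {Z X U : Sch k} (i : Z ⟶ X) (j : U ⟶ X), FT True X → IsTriple i j →
    ∃ (a : ∀ n, obj n w Z ⟶ obj n w X) (b : ∀ n, obj n w X ⟶ obj n w U)
      (d : ∀ n, obj (n + 1) w U ⟶ obj n w Z) (h1 : ∀ n, a n ≫ b n = 0)
      (h2 : ∀ n, b (n + 1) ≫ d n = 0) (h3 : ∀ n, d n ≫ a n = 0),
      (∀ n, (ShortComplex.mk _ _ (h1 n)).Exact) ∧ (∀ n, (ShortComplex.mk _ _ (h2 n)).Exact) ∧
      ∀ n, (ShortComplex.mk _ _ (h3 n)).Exact
  bundle : ∀ (i j : ℤ) (A : Type) [CommRing A] [Algebra k A] [Algebra.FiniteType k A] (m : ℕ)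
    (f : Fin m → A) (U : Sch k) (t : U ⟶ aff k A), IsCompl f t →
    Nonempty (obj i j U ≅ obj (i + 2 * (m - 1 : ℕ)) (j + (m - 1 : ℕ)) (jouS k f))
  torus : ∀ (i j : ℤ) (A : Type) [CommRing A] [Algebra k A] [Algebra.FiniteType k A],
    ∃ (s : obj i j (aff k A) ⟶ obj (i + 2) (j + 1) (laurS k A))
      (p : obj (i + 2) (j + 1) (laurS k A) ⟶ obj i j (aff k A)), s ≫ p = 𝟙 _

variable {k : Type} [Field k] {𝓜 : Type u} [Category.{v} 𝓜] [Abelian 𝓜]

theorem Thick.retract {C : 𝓜 → Prop} (hC : Thick C) {A B : 𝓜} (s : A ⟶ B) (p : B ⟶ A)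
    (h : s ≫ p = 𝟙 A) (hB : C B) : C A := by
  have h1 : (s ≫ (𝟙 B - p ≫ s)) = 0 := by
    rw [Preadditive.comp_sub, Category.comp_id, reassoc_of% h, sub_self]
  have h2 : (𝟙 B - p ≫ s) ≫ p = 0 := by
    rw [Preadditive.sub_comp, Category.id_comp, Category.assoc, h, Category.comp_id, sub_self]
  have h0 : p ≫ (0 : A ⟶ B) = 0 := comp_zero
  refine hC (ShortComplex.mk p (0 : A ⟶ B) h0) ?_ hB hB
  have : Epi p := by
    have : IsSplitEpi p := ⟨⟨⟨s, h⟩⟩⟩
    infer_instance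
  exact (ShortComplex.exact_iff_epi _ rfl).2 (inferInstanceAs (Epi p))

theorem Homology.mid (H : Homology k 𝓜) {C : 𝓜 → Prop} (hC : Thick C)
    (hpt : ∀ i j : ℤ, C (H.obj i j (aff k k))) : Mid k (fun i j X => C (H.obj i j X)) where
  iso i j _ _ hX e hE := hC.of_iso (H.iso i j hX e).some hE
  total n w _ _ _ i j hX ht hZ hU := by
    obtain ⟨a, b, d, h1, h2, h3, e1, e2, e3⟩ := H.localization w i j hX ht
    exact hC _ (e1 n) hZ hU
  opened n w _ _ _ i j hX ht hX' hZ := by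
    obtain ⟨a, b, d, h1, h2, h3, e1, e2, e3⟩ := H.localization w i j hX ht
    exact hC _ (e2 n) hX' hZ
  closed n w _ _ _ i j hX ht hU hX' := by
    obtain ⟨a, b, d, h1, h2, h3, e1, e2, e3⟩ := H.localization w i j hX ht
    exact hC _ (e3 n) hU hX'
  bundle i j A _ _ _ m f U t h := by
    obtain ⟨e⟩ := H.bundle i j A m f U t h
    exact ⟨hC.of_iso e, hC.of_iso e.symm⟩
  torus i j A _ _ _ h := by
    obtain ⟨s, p, hsp⟩ := H.torus i j A
    exact hC.retract s p hsp h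
  point := hpt

end Pool.Agent.R696.TF
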