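import Pool.Agent.R696.TF.Mid

/-!
# Hodge classes and their conjugates in the homology of schemes of finite type
-/

set_option autoImplicit false

open CategoryTheory CategoryTheory.Limits AlgebraicGeometry MvPolynomial
open Pool.Agent.Y116.UV Pool.Agent.Z125.UN
open Pool.Agent.R904.TB (IsCompl jouS laurS)

namespace Pool.Agent.R696.TF

/-- A rational vector space `V` with its Hodge classes and, for every `σ` in `ι`, a conjugate rational
vector space `V' σ` with its Hodge classes and the relation `conj σ` on `V × V' σ`: `v'` is the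
conjugate of `v`. No nonzero vector is a conjugate of `0`. -/
structure ConjObj (ι : Type) where
  V : Type
  V' : ι → Type
  [gV : AddCommGroup V]
  [mV : Module ℚ V]
  [gV' : ∀ σ, AddCommGroup (V' σ)]
  [mV' : ∀ σ, Module ℚ (V' σ)]
  hodge : Submodule ℚ V
  hodge' : ∀ σ, Submodule ℚ (V' σ)
  conj : ∀ σ, Submodule ℚ (V × V' σ)
  inj : ∀ σ v', ((0 : V), v') ∈ conj σ → v' = 0

attribute [instance] ConjObj.gV ConjObj.mV ConjObj.gV' ConjObj.mV'

variable {ι : Type}

/-- `v` is a Hodge class, and `v'` is a Hodge class and the conjugate of `v` -/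
def ConjObj.IsPair (A : ConjObj ι) (σ : ι) (v : A.V) (v' : A.V' σ) : Prop :=
  v ∈ A.hodge ∧ v' ∈ A.hodge' σ ∧ (v, v') ∈ A.conj σ

/-- Every Hodge class has a `σ`-conjugate which is a Hodge class. -/
def ConjObj.AllConj (A : ConjObj ι) (σ : ι) : Prop := ∀ v ∈ A.hodge, ∃ v', A.IsPair σ v v'

/-- Linear maps which preserve the Hodge classes and the conjugation -/
structure ConjObj.Hom (A B : ConjObj ι) where
  f : A.V →ₗ[ℚ] B.V
  f' : ∀ σ, A.V' σ →ₗ[ℚ] B.V' σ
  hodge : ∀ v ∈ A.hodge, f v ∈ B.hodge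
  hodge' : ∀ σ, ∀ v' ∈ A.hodge' σ, f' σ v' ∈ B.hodge' σ
  conj : ∀ σ v v', (v, v') ∈ A.conj σ → (f v, f' σ v') ∈ B.conj σ

/-- Exactness for the Hodge classes and, for every `σ`, for the pairs of a Hodge class and its
conjugate. -/
def ConjObj.Exact {A B C : ConjObj ι} (f : A.Hom B) (g : B.Hom C) : Prop :=
  (∀ v ∈ A.hodge, g.f (f.f v) = 0) ∧ (∀ v ∈ B.hodge, g.f v = 0 → ∃ u ∈ A.hodge, f.f u = v) ∧
  (∀ σ v v', B.IsPair σ v v' → g.f v = 0 → g.f' σ v' = 0 →
    ∃ u u', A.IsPair σ u u' ∧ f.f u = v ∧ f.f' σ u' = v')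

/-- `A` is a direct summand of `B`. -/
def ConjObj.IsRetract (A B : ConjObj ι) : Prop :=
  ∃ (s : A.Hom B) (p : B.Hom A), (∀ v, p.f (s.f v) = v) ∧ ∀ σ v', p.f' σ (s.f' σ v') = v'

theorem ConjObj.Hom.pair {A B : ConjObj ι} (f : A.Hom B) {σ : ι} {v : A.V} {v' : A.V' σ}
    (h : A.IsPair σ v v') : B.IsPair σ (f.f v) (f.f' σ v') :=
  ⟨f.hodge v h.1, f.hodge' σ v' h.2.1, f.conj σ v v' h.2.2⟩

theorem ConjObj.IsRetract.allConj {A B : ConjObj ι} (h : A.IsRetract B) {σ : ι}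
    (hB : B.AllConj σ) : A.AllConj σ := by
  obtain ⟨s, p, h1, -⟩ := h
  intro v hv
  obtain ⟨w', hw⟩ := hB (s.f v) (s.hodge v hv)
  refine ⟨p.f' σ w', ?_⟩
  have h2 := p.pair hw
  rwa [h1] at h2

theorem ConjObj.four {A B C D : ConjObj ι} (f : A.Hom B) (g : B.Hom C) (h : C.Hom D)
    (e1 : ConjObj.Exact f g) (e2 : ConjObj.Exact g h) {σ : ι} (hA : A.AllConj σ)
    (hC : C.AllConj σ) : B.AllConj σ := by
  intro v hv
  obtain ⟨w', hw⟩ := hC (g.f v) (g.hodge v hv)
  have h0 : h.f (g.f v) = 0 := e2.1 v hv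
  have h1 : h.f' σ w' = 0 := by
    have h2 := (h.pair hw).2.2
    rw [h0] at h2
    exact D.inj σ _ h2
  obtain ⟨u, u', hu, hu1, -⟩ := e2.2.2 σ _ _ hw h0 h1
  have h3 : g.f (v - u) = 0 := by rw [map_sub, hu1, sub_self]
  obtain ⟨x, hx, hx1⟩ := e1.2.1 (v - u) (B.hodge.sub_mem hv hu.1) h3
  obtain ⟨x', hx'⟩ := hA x hx
  have h4 := f.pair hx'
  refine ⟨u' + f.f' σ x', ?_⟩
  have h5 : v = u + f.f x := by rw [hx1, add_sub_cancel]
  refine ⟨hv, (B.hodge' σ).add_mem hu.2.1 h4.2.1, ?_⟩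
  have h6 := (B.conj σ).add_mem hu.2.2 h4.2.2
  rw [Prod.mk_add_mk, ← h5] at h6
  exact h6

/-- Hodge classes and their conjugates in the homology of the separated schemes of finite type over
`k`: `obj i j X` is `gr^W_{-2j} H_i(X, ℚ)(-j)`, Borel-Moore homology, with the same space of the
conjugate of `X` under `σ`.

* `localization`: long exact sequences for a closed subscheme `Z` of `X` and its complement `U`;
* `bundle`: the homology in bidegree `(i, j)` of an open subscheme `U` of `Spec A` is isomorphic to the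
  homology in bidegree `(i + 2(m-1), j + (m-1))` of the affine bundle of Jouanolou with fibre `𝔸^(m-1)`;
* `torus`: the homology of `X` in bidegree `(i, j)` is a direct summand of the homology of `X × 𝔾_m` in
  bidegree `(i + 2, j + 1)`. -/
structure ConjTheory (k : Type) [Field k] (ι : Type) where
  obj : ℤ → ℤ → Sch k → ConjObj ι
  iso : ∀ (i j : ℤ) {X Y : Sch k}, FT True X → Nonempty (X ≅ Y) → (obj i j X).IsRetract (obj i j Y) ∧
    (obj i j Y).IsRetract (obj i j X)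
  localization : ∀ (w : ℤ) {Z X U : Sch k} (i : Z ⟶ X) (j : U ⟶ X), FT True X → IsTriple i j →
    ∃ (a : ∀ n, (obj n w Z).Hom (obj n w X)) (b : ∀ n, (obj n w X).Hom (obj n w U))
      (d : ∀ n, (obj (n + 1) w U).Hom (obj n w Z)),
      (∀ n, ConjObj.Exact (a n) (b n)) ∧ (∀ n, ConjObj.Exact (b (n + 1)) (d n)) ∧
      ∀ n, ConjObj.Exact (d n) (a n)
  bundle : ∀ (i j : ℤ) (A : Type) [CommRing A] [Algebra k A] [Algebra.FiniteType k A] (m : ℕ)
    (f : Fin m → A) (U : Sch k) (t : U ⟶ aff k A), IsCompl f t →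
    (obj i j U).IsRetract (obj (i + 2 * (m - 1 : ℕ)) (j + (m - 1 : ℕ)) (jouS k f)) ∧
      (obj (i + 2 * (m - 1 : ℕ)) (j + (m - 1 : ℕ)) (jouS k f)).IsRetract (obj i j U)
  torus : ∀ (i j : ℤ) (A : Type) [CommRing A] [Algebra k A] [Algebra.FiniteType k A],
    (obj i j (aff k A)).IsRetract (obj (i + 2) (j + 1) (laurS k A))

variable {k : Type} [Field k]

theorem ConjTheory.mid (H : ConjTheory k ι) (σ : ι)
    (hpt : ∀ i j : ℤ, (H.obj i j (aff k k)).AllConj σ) :
    Mid k (fun i j X => (H.obj i j X).AllConj σ) where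
  iso i j _ _ hX e hE := (H.iso i j hX e).2.allConj hE
  total n w _ _ _ i j hX ht hZ hU := by
    obtain ⟨a, b, d, h1, h2, h3⟩ := H.localization w i j hX ht
    obtain ⟨m, rfl⟩ : ∃ m : ℤ, n = m + 1 := ⟨n - 1, by ring⟩
    exact ConjObj.four (a (m + 1)) (b (m + 1)) (d m) (h1 _) (h2 m) hZ hU
  opened n w _ _ _ i j hX ht hX' hZ := by
    obtain ⟨a, b, d, h1, h2, h3⟩ := H.localization w i j hX ht
    exact ConjObj.four (b (n + 1)) (d n) (a n) (h2 n) (h3 n) hX' hZ
  closed n w _ _ _ i j hX ht hU hX' := by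
    obtain ⟨a, b, d, h1, h2, h3⟩ := H.localization w i j hX ht
    exact ConjObj.four (d n) (a n) (b n) (h3 n) (h1 n) hU hX'
  bundle i j A _ _ _ m f U t h :=
    ⟨(H.bundle i j A m f U t h).2.allConj, (H.bundle i j A m f U t h).1.allConj⟩
  torus i j A _ _ _ h := (H.torus i j A).allConj h
  point := hpt

theorem Mid.forall {E : ι → ℤ → ℤ → Sch k → Prop} (h : ∀ σ, Mid k (E σ)) :
    Mid k (fun i j X => ∀ σ, E σ i j X) where
  iso i j _ _ hX e hE σ := (h σ).iso i j hX e (hE σ)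
  total n w _ _ _ i j hX ht hZ hU σ := (h σ).total n w i j hX ht (hZ σ) (hU σ)
  opened n w _ _ _ i j hX ht hX' hZ σ := (h σ).opened n w i j hX ht (hX' σ) (hZ σ)
  closed n w _ _ _ i j hX ht hU hX' σ := (h σ).closed n w i j hX ht (hU σ) (hX' σ)
  bundle i j A _ _ _ m f U t ht := forall_congr' fun σ => (h σ).bundle i j A m f U t ht
  torus i j A _ _ _ hE σ := (h σ).torus i j A (hE σ)
  point i j σ := (h σ).point i j

end Pool.Agent.R696.TF
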