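import Pool.Agent.R696.TF.Inv

/-!
# Integrality of rational polynomials with integral roots
-/

set_option autoImplicit false

open Polynomial

namespace Pool.Agent.R696.TF

/-- All roots in an algebraic closure are algebraic integers. -/
def RootsIntegral {K : Type} [Field K] (f : K[X]) : Prop :=
  ∀ x ∈ (f.map (algebraMap K (AlgebraicClosure K))).roots, IsIntegral ℤ x

theorem exists_int {K : Type} [Field K] [CharZero K] {Q : ℚ[X]} (hQ : Q.Monic)
    (h : RootsIntegral (Q.map (algebraMap ℚ K))) : ∃ Z : ℤ[X], Z.map (Int.castRingHom ℚ) = Q := by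
  let L := AlgebraicClosure K
  let O := integralClosure ℤ L
  have h0 : ((Q.map (algebraMap ℚ K)).map (algebraMap K L)) = Q.map (algebraMap ℚ L) := by
    rw [Polynomial.map_map]
    congr 1
  have hm : (Q.map (algebraMap ℚ L)).Monic := hQ.map _
  have h1 : Q.map (algebraMap ℚ L) ∈ Polynomial.lifts (algebraMap O L) := by
    have h2 : Q.map (algebraMap ℚ L) =
        (((Q.map (algebraMap ℚ L)).roots).map fun a => X - C a).prod :=
      (IsAlgClosed.splits _).eq_prod_roots_of_monic hm
    rw [h2]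
    apply Subsemiring.multiset_prod_mem
    intro f hf
    obtain ⟨a, ha, rfl⟩ := Multiset.mem_map.1 hf
    rw [← h0] at ha
    have h3 : IsIntegral ℤ a := h a ha
    refine ⟨X - C (⟨a, h3⟩ : O), ?_⟩
    change Polynomial.map (algebraMap O L) (X - C (⟨a, h3⟩ : O)) = X - C a
    rw [Polynomial.map_sub, Polynomial.map_X, Polynomial.map_C]
    rfl
  have h4 : ∀ n, ∃ z : ℤ, (z : ℚ) = Q.coeff n := by
    intro n
    obtain ⟨c, hc⟩ := (Polynomial.lifts_iff_coeff_lifts _).1 h1 n
    rw [Polynomial.coeff_map] at hc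
    have h5 : IsIntegral ℤ (algebraMap ℚ L (Q.coeff n)) := by
      rw [← hc]
      exact c.2
    have h6 : IsIntegral ℤ (Q.coeff n) :=
      (isIntegral_algebraMap_iff (algebraMap ℚ L).injective).1 h5
    obtain ⟨z, hz⟩ := IsIntegrallyClosed.isIntegral_iff.1 h6
    exact ⟨z, by rw [← hz]; simp⟩
  have h5 : Q ∈ Polynomial.lifts (Int.castRingHom ℚ) := by
    rw [Polynomial.lifts_iff_coeff_lifts]
    intro n
    obtain ⟨z, hz⟩ := h4 n
    exact ⟨z, hz⟩
  obtain ⟨Z, hZ⟩ := h5
  exact ⟨Z, hZ⟩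

end Pool.Agent.R696.TF
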