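import Pool.Agent.R696.TF.Sub

/-!
# Euler factors of realizations
-/

set_option autoImplicit false

open CategoryTheory CategoryTheory.Limits

namespace Pool.Agent.R696.TF

section

variable {k : Type} [Field k] {D : Type} [Group D]

/-- the vectors fixed by the subgroup `I` -/
def fixedBy {V : Type} [AddCommGroup V] [Module k V] (ρ : Representation k D V) (I : Subgroup D) :
    Submodule k V where
  carrier := {v | ∀ g ∈ I, ρ g v = v}
  add_mem' := by
    intro a b ha hb g hg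
    rw [map_add, ha g hg, hb g hg]
  zero_mem' := fun g _ => map_zero _
  smul_mem' := by
    intro c v hv g hg
    rw [map_smul, hv g hg]

theorem mapsTo_fixedBy {V : Type} [AddCommGroup V] [Module k V] (ρ : Representation k D V)
    (I : Subgroup D) [hI : I.Normal] (φ : D) : ∀ v ∈ fixedBy ρ I, ρ φ v ∈ fixedBy ρ I := by
  intro v hv g hg
  have h1 : φ⁻¹ * g * φ ∈ I := by simpa using hI.conj_mem g hg φ⁻¹
  have h2 := hv _ h1
  have h3 : ρ g (ρ φ v) = ρ φ (ρ (φ⁻¹ * g * φ) v) := by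
    rw [← Module.End.mul_apply, ← Module.End.mul_apply, ← map_mul, ← map_mul]
    congr 2
    group
  rw [h3, h2]

/-- `φ` on the vectors fixed by `I` -/
def frobOn {V : Type} [AddCommGroup V] [Module k V] (ρ : Representation k D V)
    (I : Subgroup D) [I.Normal] (φ : D) : fixedBy ρ I →ₗ[k] fixedBy ρ I :=
  (ρ φ).restrict (mapsTo_fixedBy ρ I φ)

theorem charpoly_sum {V W U : Type} [AddCommGroup V] [Module k V] [AddCommGroup W] [Module k W]
    [AddCommGroup U] [Module k U] [FiniteDimensional k V] [FiniteDimensional k W]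
    [FiniteDimensional k U] (ρ : Representation k D V) (τ : Representation k D W)
    (υ : Representation k D U) (a : V →ₗ[k] U) (b : W →ₗ[k] U) (a' : U →ₗ[k] V) (b' : U →ₗ[k] W)
    (ha : ∀ g v, a (ρ g v) = υ g (a v)) (hb : ∀ g v, b (τ g v) = υ g (b v))
    (ha' : ∀ g v, a' (υ g v) = ρ g (a' v)) (hb' : ∀ g v, b' (υ g v) = τ g (b' v))
    (h1 : ∀ v, a' (a v) = v) (h2 : ∀ v, b' (b v) = v) (h3 : ∀ v, a (a' v) + b (b' v) = v)
    (I : Subgroup D) [I.Normal] (φ : D) :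
    (frobOn υ I φ).charpoly = (frobOn ρ I φ).charpoly * (frobOn τ I φ).charpoly := by
  have hba : ∀ v, b' (a v) = 0 := by
    intro v
    have h4 := h3 (a v)
    rw [h1, add_eq_left] at h4
    rw [← h2 (b' (a v)), h4, map_zero]
  have hab : ∀ v, a' (b v) = 0 := by
    intro v
    have h4 := h3 (b v)
    rw [h2, add_eq_right] at h4
    rw [← h1 (a' (b v)), h4, map_zero]
  let e : (fixedBy ρ I × fixedBy τ I) ≃ₗ[k] fixedBy υ I :=
    { toFun := fun x => ⟨a x.1.1 + b x.2.1, fun g hg => by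
        rw [map_add, ← ha, ← hb, x.1.2 g hg, x.2.2 g hg]⟩
      invFun := fun y => (⟨a' y.1, fun g hg => by rw [← ha', y.2 g hg]⟩,
        ⟨b' y.1, fun g hg => by rw [← hb', y.2 g hg]⟩)
      left_inv := by
        rintro ⟨⟨x, hx⟩, ⟨y, hy⟩⟩
        simp only [map_add, h1, h2, hba, hab, add_zero, zero_add]
      right_inv := by
        rintro ⟨y, hy⟩
        simp only [h3]
      map_add' := by
        intro x y
        apply Subtype.ext
        change a (x.1.1 + y.1.1) + b (x.2.1 + y.2.1) = (a x.1.1 + b x.2.1) + (a y.1.1 + b y.2.1)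
        rw [map_add, map_add]
        abel
      map_smul' := by
        intro c x
        apply Subtype.ext
        change a (c • x.1.1) + b (c • x.2.1) = c • (a x.1.1 + b x.2.1)
        rw [map_smul, map_smul, smul_add] }
  have h5 : frobOn υ I φ = e.conj ((frobOn ρ I φ).prodMap (frobOn τ I φ)) := by
    apply LinearMap.ext
    intro y
    obtain ⟨x, rfl⟩ := e.surjective y
    rw [LinearEquiv.conj_apply_apply, LinearEquiv.symm_apply_apply]
    apply Subtype.ext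
    change υ φ (a x.1.1 + b x.2.1) = a (ρ φ x.1.1) + b (τ φ x.2.1)
    rw [map_add, ha, hb]
  rw [h5, LinearEquiv.charpoly_conj, LinearMap.charpoly_prodMap]

theorem charpoly_iso {V U : Type} [AddCommGroup V] [Module k V]
    [AddCommGroup U] [Module k U] [FiniteDimensional k V]
    [FiniteDimensional k U] (ρ : Representation k D V)
    (υ : Representation k D U) (a : V →ₗ[k] U) (a' : U →ₗ[k] V)
    (ha : ∀ g v, a (ρ g v) = υ g (a v))
    (ha' : ∀ g v, a' (υ g v) = ρ g (a' v))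
    (h1 : ∀ v, a' (a v) = v) (h3 : ∀ v, a (a' v) = v)
    (I : Subgroup D) [I.Normal] (φ : D) :
    (frobOn υ I φ).charpoly = (frobOn ρ I φ).charpoly := by
  let e : fixedBy ρ I ≃ₗ[k] fixedBy υ I :=
    { toFun := fun x => ⟨a x.1, fun g hg => by rw [← ha, x.2 g hg]⟩
      invFun := fun y => ⟨a' y.1, fun g hg => by rw [← ha', y.2 g hg]⟩
      left_inv := by
        rintro ⟨x, hx⟩
        simp only [h1]
      right_inv := by
        rintro ⟨y, hy⟩
        simp only [h3]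
      map_add' := by
        intro x y
        apply Subtype.ext
        change a (x.1 + y.1) = a x.1 + a y.1
        rw [map_add]
      map_smul' := by
        intro c x
        apply Subtype.ext
        change a (c • x.1) = c • a x.1
        rw [map_smul] }
  have h5 : frobOn υ I φ = e.conj (frobOn ρ I φ) := by
    apply LinearMap.ext
    intro y
    obtain ⟨x, rfl⟩ := e.surjective y
    rw [LinearEquiv.conj_apply_apply, LinearEquiv.symm_apply_apply]
    apply Subtype.ext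
    change υ φ (a x.1) = a (ρ φ x.1)
    rw [ha]
  rw [h5, LinearEquiv.charpoly_conj]

end

universe u v

/-- `ℓ`-adic realizations of the objects of `𝓜` for all primes `ℓ`: additive functors `V ℓ` to
finite-dimensional spaces over `ℚ_ℓ`, with an action of the group `D` which is natural. -/
structure Realizations (𝓜 : Type u) [Category.{v} 𝓜] [Preadditive 𝓜] (D : Type) [Group D] where
  V : ∀ (ℓ : ℕ) [Fact ℓ.Prime], 𝓜 ⥤ ModuleCat.{0} ℚ_[ℓ]
  additive : ∀ (ℓ : ℕ) [Fact ℓ.Prime], (V ℓ).Additive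
  finite : ∀ (ℓ : ℕ) [Fact ℓ.Prime] (M : 𝓜), FiniteDimensional ℚ_[ℓ] ((V ℓ).obj M)
  ρ : ∀ (ℓ : ℕ) [Fact ℓ.Prime] (M : 𝓜), Representation ℚ_[ℓ] D ((V ℓ).obj M)
  natural : ∀ (ℓ : ℕ) [Fact ℓ.Prime] {M N : 𝓜} (f : M ⟶ N) (g : D) (x : (V ℓ).obj M),
    ((V ℓ).map f).hom (ρ ℓ M g x) = ρ ℓ N g (((V ℓ).map f).hom x)

attribute [instance] Realizations.additive Realizations.finite

variable {𝓜 : Type u} [Category.{v} 𝓜] [Abelian 𝓜] {D : Type} [Group D]

/-- The characteristic polynomial of `φ` on the vectors of the `ℓ`-adic realization of `M` which are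
fixed by `I`, for all primes `ℓ ≠ p`, is one polynomial with rational coefficients. -/
def EulerIndependent (V : Realizations 𝓜 D) (p : ℕ) (I : Subgroup D) [I.Normal] (φ : D) (M : 𝓜) :
    Prop :=
  ∃ Q : Polynomial ℚ, ∀ (ℓ : ℕ) [Fact ℓ.Prime], ℓ ≠ p →
    (frobOn (V.ρ ℓ M) I φ).charpoly = Q.map (algebraMap ℚ ℚ_[ℓ])

theorem euler_sumClosed (V : Realizations 𝓜 D) (p : ℕ) (I : Subgroup D) [I.Normal] (φ : D) :
    SumClosed (EulerIndependent V p I φ) where
  iso := by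
    rintro A B e ⟨Q, hQ⟩
    refine ⟨Q, fun ℓ _ hℓ => ?_⟩
    rw [← hQ ℓ hℓ]
    have h1 : (V.V ℓ).map e.hom ≫ (V.V ℓ).map e.inv = 𝟙 _ := by
      rw [← (V.V ℓ).map_comp, e.hom_inv_id, (V.V ℓ).map_id]
    have h2 : (V.V ℓ).map e.inv ≫ (V.V ℓ).map e.hom = 𝟙 _ := by
      rw [← (V.V ℓ).map_comp, e.inv_hom_id, (V.V ℓ).map_id]
    exact charpoly_iso (V.ρ ℓ A) (V.ρ ℓ B) ((V.V ℓ).map e.hom).hom ((V.V ℓ).map e.inv).hom
      (V.natural ℓ e.hom) (V.natural ℓ e.inv)
      (fun x => congrArg (fun q : (V.V ℓ).obj A ⟶ (V.V ℓ).obj A => q.hom x) h1)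
      (fun x => congrArg (fun q : (V.V ℓ).obj B ⟶ (V.V ℓ).obj B => q.hom x) h2) I φ
  sum := by
    rintro A B ⟨Q, hQ⟩ ⟨Q', hQ'⟩
    refine ⟨Q * Q', fun ℓ _ hℓ => ?_⟩
    rw [Polynomial.map_mul, ← hQ ℓ hℓ, ← hQ' ℓ hℓ]
    have h1 : (V.V ℓ).map (biprod.inl : A ⟶ A ⊞ B) ≫ (V.V ℓ).map biprod.fst = 𝟙 _ := by
      rw [← (V.V ℓ).map_comp, biprod.inl_fst, (V.V ℓ).map_id]
    have h2 : (V.V ℓ).map (biprod.inr : B ⟶ A ⊞ B) ≫ (V.V ℓ).map biprod.snd = 𝟙 _ := by
      rw [← (V.V ℓ).map_comp, biprod.inr_snd, (V.V ℓ).map_id]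
    have h3 : (V.V ℓ).map (biprod.fst : A ⊞ B ⟶ A) ≫ (V.V ℓ).map (biprod.inl : A ⟶ A ⊞ B) +
        (V.V ℓ).map (biprod.snd : A ⊞ B ⟶ B) ≫ (V.V ℓ).map (biprod.inr : B ⟶ A ⊞ B) = 𝟙 _ := by
      rw [← (V.V ℓ).map_comp, ← (V.V ℓ).map_comp, ← (V.V ℓ).map_add, biprod.total,
        (V.V ℓ).map_id]
    exact charpoly_sum (V.ρ ℓ A) (V.ρ ℓ B) (V.ρ ℓ (A ⊞ B)) ((V.V ℓ).map biprod.inl).hom
      ((V.V ℓ).map biprod.inr).hom ((V.V ℓ).map biprod.fst).hom ((V.V ℓ).map biprod.snd).hom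
      (V.natural ℓ _) (V.natural ℓ _) (V.natural ℓ _) (V.natural ℓ _)
      (fun x => congrArg (fun q : (V.V ℓ).obj A ⟶ (V.V ℓ).obj A => q.hom x) h1)
      (fun x => congrArg (fun q : (V.V ℓ).obj B ⟶ (V.V ℓ).obj B => q.hom x) h2)
      (fun x => congrArg (fun q : (V.V ℓ).obj (A ⊞ B) ⟶ (V.V ℓ).obj (A ⊞ B) => q.hom x) h3) I φ

end Pool.Agent.R696.TF
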