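import Pool.Agent.R904.TB.Main

/-!
# Properties of bigraded Borel-Moore homology which pass to the middle of exact sequences

`E i j X` is a property of the homology of `X` in the bidegree `(i, j)`. If it passes to the middle
term of exact sequences, then it is enough to know it for the hypersurfaces `T(x, y, z) = 1`, `T` a
trilinear form (`universal`, `dim_tri` of the starting library), and, in each dimension, for smooth
projective models.
-/

set_option autoImplicit false

open CategoryTheory CategoryTheory.Limits AlgebraicGeometry MvPolynomial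
open Pool.Agent.Y116.UV Pool.Agent.Z125.UN
open Pool.Agent.R904.TB (IsCompl jouS laurS)

namespace Pool.Agent.R696.TF

/-- A property of homology groups of separated schemes of finite type over `k`, in all bidegrees
`(i, j)`, which passes to the middle terms in the long exact sequences
`H_i(Z) → H_i(X) → H_i(U) → H_{i-1}(Z)`, is compatible with the shift of bidegrees for the bundles of
Jouanolou, and passes from `X × 𝔾_m` to `X`. -/
structure Mid (k : Type) [Field k] (E : ℤ → ℤ → Sch k → Prop) : Prop where
  iso : ∀ (i j : ℤ) {X Y : Sch k}, FT True X → Nonempty (X ≅ Y) → E i j X → E i j Y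
  total : ∀ (n w : ℤ) {Z X U : Sch k} (i : Z ⟶ X) (j : U ⟶ X), FT True X → IsTriple i j →
    E n w Z → E n w U → E n w X
  opened : ∀ (n w : ℤ) {Z X U : Sch k} (i : Z ⟶ X) (j : U ⟶ X), FT True X → IsTriple i j →
    E (n + 1) w X → E n w Z → E (n + 1) w U
  closed : ∀ (n w : ℤ) {Z X U : Sch k} (i : Z ⟶ X) (j : U ⟶ X), FT True X → IsTriple i j →
    E (n + 1) w U → E n w X → E n w Z
  bundle : ∀ (i j : ℤ) (A : Type) [CommRing A] [Algebra k A] [Algebra.FiniteType k A] (m : ℕ)
    (f : Fin m → A) (U : Sch k) (t : U ⟶ aff k A), IsCompl f t →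
    (E i j U ↔ E (i + 2 * (m - 1 : ℕ)) (j + (m - 1 : ℕ)) (jouS k f))
  torus : ∀ (i j : ℤ) (A : Type) [CommRing A] [Algebra k A] [Algebra.FiniteType k A],
    E (i + 2) (j + 1) (laurS k A) → E i j (aff k A)
  point : ∀ i j : ℤ, E i j (aff k k)

/-- `E` in all bidegrees -/
def All {k : Type} [Field k] (E : ℤ → ℤ → Sch k → Prop) (X : Sch k) : Prop := ∀ i j : ℤ, E i j X

variable {k : Type} [Field k] {E : ℤ → ℤ → Sch k → Prop}

theorem Mid.space (H : Mid k E) (n : ℕ) : All E (aff k (MvPolynomial (Fin n) k)) := by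
  have h2 : All E (aff k (Jou (f1 k n))) := by
    intro i j
    have h3 := H.bundle (i - 2 * ((n + 1 - 1 : ℕ) : ℤ)) (j - ((n + 1 - 1 : ℕ) : ℤ)) k (n + 1)
      (f1 k n) (aff k k) (𝟙 _) ⟨inferInstance, range_id n⟩
    rw [sub_add_cancel, sub_add_cancel] at h3
    exact h3.1 (H.point _ _)
  intro i j
  exact H.iso i j (ft_aff True) ⟨(affIso (jouOne k n)).symm⟩ (h2 i j)

theorem Mid.bnd (H : Mid k E) : Bnd True fun X : Sch k => All E X where
  iso h e hX i j := H.iso i j h e (hX i j)
  total u v h ht hZ hU i j := H.total i j u v h ht (hZ i j) (hU i j)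
  opened u v h ht hZ hX i j := by
    obtain ⟨n, rfl⟩ : ∃ n : ℤ, i = n + 1 := ⟨i - 1, by ring⟩
    exact H.opened n j u v h ht (hX _ j) (hZ n j)
  closed u v h ht hX hU i j := H.closed i j u v h ht (hU _ j) (hX i j)
  space := H.space
  jouanolou A _ _ _ m f U t hj hr h i j := (H.bundle i j A m f U t ⟨hj, hr⟩).2 (h _ _)
  torus A _ _ _ h i j := H.torus i j A (h _ _)
  bundle A _ _ _ m f U t hj hr h := by
    intro i j
    have h3 := H.bundle (i - 2 * ((m - 1 : ℕ) : ℤ)) (j - ((m - 1 : ℕ) : ℤ)) A m f U t ⟨hj, hr⟩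
    rw [sub_add_cancel, sub_add_cancel] at h3
    exact h3.1 (h _ _)

/-- `E` for all schemes of dimension at most `d` -/
def DimLe (E : ℤ → ℤ → Sch k → Prop) (d : ℕ) : Prop :=
  ∀ X : Sch k, FT True X → topologicalKrullDim X.left ≤ d → All E X

/-- `E` for the members of a class `S` of schemes of dimension at most `d` -/
def ClassLe (S : Sch k → Prop) (E : ℤ → ℤ → Sch k → Prop) (d : ℕ) : Prop :=
  ∀ X : Sch k, FT True X → S X → topologicalKrullDim X.left ≤ d → All E X

/-- `E` for the hypersurfaces `T(x, y, z) = 1`, for all trilinear forms `T` over `k` such that one of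
the three blocks of variables has at most `m` variables -/
def Block (E : ℤ → ℤ → Sch k → Prop) (m : ℕ) : Prop :=
  ∀ (a b c : ℕ) (T : Fin a → Fin b → Fin c → k), (a ≤ m ∨ b ≤ m ∨ c ≤ m) → All E (hypS T)

/-- `U` is an open subscheme of `X`, and the dimension of the complement is less than `d`. -/
def BigOpen (d : ℕ) (U X : Sch k) : Prop :=
  ∃ (Z : Sch k) (i : Z ⟶ X) (j : U ⟶ X), IsTriple i j ∧ topologicalKrullDim Z.left < d

/-- Every smooth scheme `X` of dimension at most `d` is birational to a scheme `Y` of the class `S`,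
up to closed subsets of dimension less than `d`. -/
def Models (S : Sch k → Prop) : Prop :=
  ∀ (d : ℕ) (X : Sch k), FT True X → Smooth X.hom → topologicalKrullDim X.left ≤ d →
    ∃ Y U : Sch k, FT True Y ∧ S Y ∧ topologicalKrullDim Y.left ≤ d ∧ BigOpen d U X ∧ BigOpen d U Y

theorem Mid.empty (H : Mid k E) (Z : Sch k) (hZ : FT True Z) (h : IsEmpty Z.left) : All E Z := by
  have hP := H.bnd
  have ha : IsAffine Z.left := isAffine_of_isEmpty
  obtain ⟨A, _, _, _, ⟨e⟩⟩ := exists_aff Z hZ.locallyOfFiniteType
  have h1 : IsEmpty (PrimeSpectrum A) := by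
    refine ⟨fun x => ?_⟩
    exact h.false (e.hom.left x)
  have h2 : Subsingleton A := by
    rwa [PrimeSpectrum.isEmpty_iff_subsingleton] at h1
  exact hP.iso (ft_aff True) ⟨e⟩ (p_empty hP A h2)

/-- for a closed subscheme -/
theorem ft_closed {X Z : Sch k} (i : Z ⟶ X) (hX : FT True X) (hi : IsClosedImmersion i.left) :
    FT True Z := by
  have h := Over.w i
  refine ⟨?_, ?_, fun _ => ?_⟩
  · have := hX.locallyOfFiniteType
    rw [← h]
    infer_instance
  · have := hX.quasiCompact
    rw [← h]
    infer_instance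
  · have := hX.separated trivial
    rw [← h]
    infer_instance

theorem lt_cases {x : WithBot ℕ∞} {d : ℕ} (h : x < d) : x = ⊥ ∨ ∃ e : ℕ, e < d ∧ x ≤ e := by
  induction x using WithBot.recBotCoe with
  | bot => exact Or.inl rfl
  | coe x =>
    right
    induction x using ENat.recTopCoe with
    | top => exact absurd h (by simp)
    | coe n => exact ⟨n, by exact_mod_cast h, le_rfl⟩

/-- it is enough to consider the members of the class `S` with models -/
theorem Mid.of_class [PerfectField k] (H : Mid k E) {S : Sch k → Prop} (hS : Models S) :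
    ∀ d : ℕ, ClassLe S E d → DimLe E d := by
  have hB := H.bnd
  intro d
  induction d using Nat.strong_induction_on with
  | _ d ih =>
    intro h
    have hlow : ∀ Z : Sch k, FT True Z → topologicalKrullDim Z.left < d → All E Z := by
      intro Z hZ hd
      rcases lt_cases hd with h1 | ⟨e, he, h1⟩
      · refine H.empty Z hZ ?_
        rw [topologicalKrullDim, Order.krullDim_eq_bot_iff] at h1
        refine ⟨fun z => h1.false ⟨closure {z}, isIrreducible_singleton.closure, isClosed_closure⟩⟩
      · refine ih e he (fun X hX hSX hn => h X hX hSX (hn.trans ?_)) Z hZ h1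
        exact_mod_cast he.le
    refine dim_smooth hB d fun X hX hs hn => ?_
    obtain ⟨Y, U, hY, hSY, hYn, ⟨Z, i, j, ht, hZ⟩, ⟨W, i', j', ht', hW⟩⟩ := hS d X hX hs hn
    have hWE := hlow W (ft_closed i' hY ht'.closed) hW
    have hZE := hlow Z (ft_closed i hX ht.closed) hZ
    have hU : All E U := hB.opened i' j' hY ht' hWE (h Y hY hSY hYn)
    exact hB.total i j hX ht hZE hU

/-- schemes of dimension at most `d` and trilinear forms with a block of at most `d + 2` variables -/
theorem Mid.dim_iff [PerfectField k] (H : Mid k E) (d : ℕ) : DimLe E d ↔ Block E (d + 2) := by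
  have hB := H.bnd
  refine ⟨fun h a b c T hm => ?_, fun h X hX hn => ?_⟩
  · have h2 : ∀ I : Ideal (MvPolynomial (Fin (d + 1)) k),
        All E (aff k (MvPolynomial (Fin (d + 1)) k ⧸ I)) :=
      dim_to_closed hB fun A _ _ _ hA => h _ (ft_aff True) (by rw [topDim_aff]; exact hA)
    exact of_block hB (fun a b c' hc' T => to_tri hB h2 a b c' hc' T) T hm
  · exact (dim_tri hB d).mpr (fun a b T => h a b (d + 2) T (Or.inr (Or.inr le_rfl))) X hX hn

/-- **The main equivalences** -/
theorem Mid.main_dim [PerfectField k] (H : Mid k E) {S : Sch k → Prop} (hS : Models S) (d : ℕ) :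
    [ClassLe S E d, DimLe E d, Block E (d + 2)].TFAE := by
  tfae_have 1 → 2 := H.of_class hS d
  tfae_have 2 → 1 := fun h X hX _ hn => h X hX hn
  tfae_have 2 ↔ 3 := H.dim_iff d
  tfae_finish

theorem Mid.main_all [PerfectField k] (H : Mid k E) {S : Sch k → Prop} (hS : Models S) :
    [∀ X : Sch k, FT True X → S X → All E X, ∀ X : Sch k, FT True X → All E X,
      ∀ (a b c : ℕ) (T : Fin a → Fin b → Fin c → k), All E (hypS T)].TFAE := by
  tfae_have 1 → 3 := by
    intro h a b c T
    have h1 : ClassLe S E c ↔ Block E (c + 2) := (H.main_dim hS c).out 0 2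
    exact h1.1 (fun X hX hSX _ => h X hX hSX) a b c T (Or.inr (Or.inr (by omega)))
  tfae_have 3 → 2 := fun h X hX => universal H.bnd.toUni (Set.mem_univ (0 : k)) (Set.mem_univ 1)
    (fun a b c T _ => h a b c T) presents_univ X hX
  tfae_have 2 → 1 := fun h X hX _ => h X hX
  tfae_finish

end Pool.Agent.R696.TF
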