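import Pool.Agent.R696.TF.Cat

/-!
# Properties of all subobjects of the homology, in a semisimple category
-/

set_option autoImplicit false

open CategoryTheory CategoryTheory.Limits AlgebraicGeometry MvPolynomial
open scoped ZeroObject
open Pool.Agent.Y116.UV Pool.Agent.Z125.UN

namespace Pool.Agent.R696.TF

universe u v u' v'

variable {𝓜 : Type u} [Category.{v} 𝓜] [Abelian 𝓜]

/-- `P` is invariant under isomorphisms and passes to direct sums. -/
structure SumClosed (P : 𝓜 → Prop) : Prop where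
  iso : ∀ {A B : 𝓜}, (A ≅ B) → P A → P B
  sum : ∀ A B : 𝓜, P A → P B → P (A ⊞ B)

/-- Every subobject of `M` has the property `P`. -/
def Her (P : 𝓜 → Prop) (M : 𝓜) : Prop := ∀ (A : 𝓜) (i : A ⟶ M) [Mono i], P A

theorem her_thick (hs : Semisimple 𝓜) {P : 𝓜 → Prop} (hP : SumClosed P) : Thick (Her P) := by
  intro S hS h1 h3 A i _
  obtain ⟨I, p, m, r, s, hg, hr, hsec⟩ := split_image hs (i ≫ S.g)
  have hm : Mono m := by
    have : IsSplitMono m := ⟨⟨⟨r, hr⟩⟩⟩
    infer_instance
  have hPI : P I := h3 I m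
  have hepi : Epi (kernel.lift S.g S.f S.zero) := hS.epi_kernelLift
  obtain ⟨⟨t⟩⟩ := hs.epi (kernel.lift S.g S.f S.zero)
  have ht : t.section_ ≫ kernel.lift S.g S.f S.zero = 𝟙 _ := t.id
  -- the kernel of `A → X₃`
  let K := kernel (i ≫ S.g)
  have hz : (kernel.ι (i ≫ S.g) ≫ i) ≫ S.g = 0 := by rw [Category.assoc, kernel.condition]
  let κ : K ⟶ kernel S.g := kernel.lift S.g (kernel.ι (i ≫ S.g) ≫ i) hz
  have hκ : Mono κ := by
    have h4 : Mono (κ ≫ kernel.ι S.g) := by
      have : κ ≫ kernel.ι S.g = kernel.ι (i ≫ S.g) ≫ i := kernel.lift_ι _ _ _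
      rw [this]
      infer_instance
    exact mono_of_mono κ (kernel.ι S.g)
  have hσ : Mono t.section_ := by
    have : IsSplitMono t.section_ := ⟨⟨⟨_, ht⟩⟩⟩
    infer_instance
  have hPK : P K := h1 K (κ ≫ t.section_)
  have hp0 : kernel.ι (i ≫ S.g) ≫ p = 0 := by
    rw [← cancel_mono m, Category.assoc, hg, kernel.condition, zero_comp]
  have h5 : (𝟙 A - p ≫ s) ≫ (i ≫ S.g) = 0 := by
    rw [← hg, Preadditive.sub_comp, Category.id_comp, Category.assoc, reassoc_of% hsec, sub_self]
  let e : A ≅ K ⊞ I :=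
    { hom := biprod.lift (kernel.lift (i ≫ S.g) (𝟙 A - p ≫ s) h5) p
      inv := biprod.desc (kernel.ι (i ≫ S.g)) s
      hom_inv_id := by
        rw [biprod.lift_desc, kernel.lift_ι, sub_add_cancel]
      inv_hom_id := by
        apply biprod.hom_ext'
        · rw [biprod.inl_desc_assoc, Category.comp_id]
          apply biprod.hom_ext
          · rw [Category.assoc, biprod.lift_fst, biprod.inl_fst,
              ← cancel_mono (kernel.ι (i ≫ S.g)), Category.assoc, kernel.lift_ι,
              Preadditive.comp_sub, Category.comp_id, reassoc_of% hp0, zero_comp, sub_zero,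
              Category.id_comp]
          · rw [Category.assoc, biprod.lift_snd, hp0, biprod.inl_snd]
        · rw [biprod.inr_desc_assoc, Category.comp_id]
          apply biprod.hom_ext
          · rw [Category.assoc, biprod.lift_fst, biprod.inr_fst,
              ← cancel_mono (kernel.ι (i ≫ S.g)), Category.assoc, kernel.lift_ι,
              Preadditive.comp_sub, Category.comp_id, reassoc_of% hsec, sub_self, zero_comp]
          · rw [Category.assoc, biprod.lift_snd, hsec, biprod.inr_snd] }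
  exact hP.iso e.symm (hP.sum K I hPK hPI)

/-- `P` for all subobjects of all the homology objects of `X` -/
def HoldsOn {k : Type} [Field k] (P : 𝓜 → Prop) (H : Homology k 𝓜) (X : Sch k) : Prop :=
  ∀ (i j : ℤ) (A : 𝓜) (f : A ⟶ H.obj i j X) [Mono f], P A

/-- **The main theorem for properties of motives.** -/
theorem main_her {k : Type} [Field k] [CharZero k] (hs : Semisimple 𝓜) {P : 𝓜 → Prop}
    (hP : SumClosed P) (H : Homology k 𝓜) (S : Sch k → Prop) (hpoint : S (aff k k))
    (hS : Models S) (n : ℕ)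
    (hlow : ∀ X : Sch k, FT True X → S X → topologicalKrullDim X.left ≤ n → HoldsOn P H X) :
    ([∀ X : Sch k, FT True X → S X → HoldsOn P H X,
      ∀ X : Sch k, FT True X → HoldsOn P H X,
      ∀ (a b c : ℕ) (T : Fin a → Fin b → Fin c → k), HoldsOn P H (hypS T)].TFAE) ∧
    (∀ d : ℕ, [∀ X : Sch k, FT True X → S X → topologicalKrullDim X.left ≤ d → HoldsOn P H X,
      ∀ X : Sch k, FT True X → topologicalKrullDim X.left ≤ d → HoldsOn P H X,
      ∀ (a b c : ℕ) (T : Fin a → Fin b → Fin c → k), (a ≤ d + 2 ∨ b ≤ d + 2 ∨ c ≤ d + 2) →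
        HoldsOn P H (hypS T)].TFAE) ∧
    (∀ (a b c : ℕ) (T : Fin a → Fin b → Fin c → k), (a ≤ n + 2 ∨ b ≤ n + 2 ∨ c ≤ n + 2) →
      HoldsOn P H (hypS T)) := by
  have hft : FT True (aff k k) := ft_aff True
  have hdim0 : topologicalKrullDim (aff k k).left = 0 := by
    rw [topDim_aff]
    exact ringKrullDim_eq_zero_of_field k
  have hpt : ∀ i j : ℤ, Her P (H.obj i j (aff k k)) := by
    refine hlow _ hft hpoint ?_
    rw [hdim0]
    exact_mod_cast Nat.zero_le n
  have hM := H.mid (her_thick hs hP) hpt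
  refine ⟨hM.main_all hS, hM.main_dim hS, ?_⟩
  have h1 : ClassLe S _ n ↔ Block _ (n + 2) := (hM.main_dim hS n).out 0 2
  exact h1.1 hlow

end Pool.Agent.R696.TF
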